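import Mathlib
import Pool.Agent.H35.AlonLoc

set_option autoImplicit false

namespace Pool.Agent.Results.MP_6383d0_co.Order

open Finset Pool.Agent.H35.AlonLoc

/-- The graph `P₄ + ℓ P₁`. -/
def forb (l : ℕ) : SimpleGraph (Fin 4 ⊕ Fin l) :=
  SimpleGraph.sum (SimpleGraph.pathGraph 4) (⊥ : SimpleGraph (Fin l))

/-- `G` is `(P₄ + ℓ P₁, K_k)`-free. -/
def InClass {V : Type} (G : SimpleGraph V) (l k : ℕ) : Prop :=
  IsEmpty (forb l ↪g G) ∧ G.CliqueFree k

section main
variable {V : Type} [Fintype V] [DecidableEq V] (G : SimpleGraph V)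

def Col (S : Finset V) (m : ℕ) : Prop :=
  ∃ c : V → ℕ, (∀ v ∈ S, c v < m) ∧ ∀ u ∈ S, ∀ v ∈ S, G.Adj u v → c u ≠ c v

def CF (S : Finset V) (k : ℕ) : Prop :=
  ∀ K ⊆ S, (∀ a ∈ K, ∀ b ∈ K, a ≠ b → G.Adj a b) → K.card < k

def P4 (a b c d : V) : Prop :=
  G.Adj a b ∧ G.Adj b c ∧ G.Adj c d ∧ ¬ G.Adj a c ∧ ¬ G.Adj a d ∧ ¬ G.Adj b d

def PF (l : ℕ) : Prop := ∀ a b c d, P4 G a b c d → ∀ J : Finset V, Ind G J →
  (∀ x ∈ J, ¬ G.Adj x a ∧ ¬ G.Adj x b ∧ ¬ G.Adj x c ∧ ¬ G.Adj x d) → J.card < l

variable {G}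

omit [Fintype V] [DecidableEq V] in
lemma Col.mono {S T : Finset V} {m n : ℕ} (h : Col G S m) (hT : T ⊆ S) (hmn : m ≤ n) :
    Col G T n := by
  obtain ⟨c, h1, h2⟩ := h
  exact ⟨c, fun v hv => (h1 v (hT hv)).trans_le hmn, fun u hu v hv => h2 u (hT hu) v (hT hv)⟩

omit [Fintype V] in
lemma Col.union {S T : Finset V} {m n : ℕ} (h : Col G S m) (h' : Col G T n) :
    Col G (S ∪ T) (m + n) := by
  obtain ⟨c, h1, h2⟩ := h
  obtain ⟨d, h3, h4⟩ := h'
  refine ⟨fun v => if v ∈ S then c v else m + d v, ?_, ?_⟩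
  · intro v hv
    by_cases h : v ∈ S
    · have := h1 v h
      simp only [h, if_true]; omega
    · have := h3 v ((mem_union.1 hv).resolve_left h)
      simp only [h, if_false]; omega
  · intro u hu v hv huv
    by_cases p : u ∈ S <;> by_cases q : v ∈ S <;> simp only [p, q, if_true, if_false]
    · exact h2 u p v q huv
    · have := h1 u p; omega
    · have := h1 v q; omega
    · have := h4 u ((mem_union.1 hu).resolve_left p) v ((mem_union.1 hv).resolve_left q) huv
      omega

omit [Fintype V] [DecidableEq V] in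
lemma col_ind {J : Finset V} (h : Ind G J) : Col G J 1 :=
  ⟨fun _ => 0, fun _ _ => Nat.one_pos, fun u hu v hv huv => absurd huv (h u hu v hv)⟩

omit [Fintype V] [DecidableEq V] in
lemma col_empty (m : ℕ) : Col G ∅ m := ⟨fun _ => 0, by simp, by simp⟩

omit [Fintype V] in
lemma col_biUnion {ι : Type} [DecidableEq ι] (I : Finset ι) (f : ι → Finset V) (m : ℕ)
    (h : ∀ i ∈ I, Col G (f i) m) : Col G (I.biUnion f) (I.card * m) := by
  induction I using Finset.induction_on with
  | empty => simpa using col_empty 0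
  | insert a s ha ih =>
    rw [biUnion_insert, card_insert_of_notMem ha, add_mul, one_mul, add_comm]
    exact (h a (mem_insert_self _ _)).union (ih fun i hi => h i (mem_insert_of_mem hi))

omit [Fintype V] in
lemma max_ind (S : Finset V) : ∃ I ⊆ S, Ind G I ∧ (∀ J ⊆ S, Ind G J → J.card ≤ I.card) ∧
    ∀ v ∈ S, v ∉ I → ∃ x ∈ I, G.Adj v x := by
  classical
  obtain ⟨I, hI, hm⟩ := exists_max_image (S.powerset.filter (Ind G)) card
    ⟨∅, mem_filter.2 ⟨empty_mem_powerset _, fun a ha => absurd ha (by simp)⟩⟩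
  have h1 := mem_filter.1 hI
  have h2 : ∀ J ⊆ S, Ind G J → J.card ≤ I.card :=
    fun J hJ hJ' => hm J (mem_filter.2 ⟨mem_powerset.2 hJ, hJ'⟩)
  refine ⟨I, mem_powerset.1 h1.1, h1.2, h2, ?_⟩
  intro v hv hvI
  by_contra hno
  push Not at hno
  have := h2 (insert v I) (insert_subset hv (mem_powerset.1 h1.1)) (by
    intro a ha b hb hab
    rcases mem_insert.1 ha with rfl | ha' <;> rcases mem_insert.1 hb with rfl | hb'
    · exact G.irrefl hab
    · exact hno b hb' hab
    · exact hno a ha' hab.symm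
    · exact h1.2 a ha' b hb' hab)
  rw [card_insert_of_notMem hvI] at this
  omega

omit [Fintype V] in
lemma cograph (k : ℕ) : ∀ S : Finset V, CF G S (k + 1) →
    (∀ a ∈ S, ∀ b ∈ S, ∀ c ∈ S, ∀ d ∈ S, ¬ P4 G a b c d) → Col G S k := by
  classical
  induction k with
  | zero =>
    intro S h _
    have : S = ∅ := by
      by_contra hne
      obtain ⟨v, hv⟩ := nonempty_iff_ne_empty.2 hne
      have := h {v} (singleton_subset_iff.2 hv) (by simp)
      simp at this
    rw [this]; exact col_empty 0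
  | succ k ih =>
    intro S h hP
    obtain ⟨I, hIS, hI, -, hdom⟩ := max_ind (G := G) S
    have h1 : CF G (S \ I) (k + 1) := by
      intro K hK hcl
      by_contra hc
      push Not at hc
      have hKS : ∀ y ∈ K, y ∈ S ∧ y ∉ I := fun y hy => mem_sdiff.1 (hK hy)
      obtain ⟨y0, hy0⟩ : K.Nonempty := card_pos.1 (by omega)
      obtain ⟨z0, hz0, -⟩ := hdom y0 (hKS y0 hy0).1 (hKS y0 hy0).2
      obtain ⟨x, hx, hm⟩ := exists_max_image I (fun x => (K.filter (G.Adj x)).card) ⟨z0, hz0⟩
      have hy : ∃ y ∈ K, ¬ G.Adj x y := by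
        by_contra hno
        push Not at hno
        have hxK : x ∉ K := fun hh => (hKS x hh).2 hx
        have := h (insert x K) (insert_subset (hIS hx) (fun y hy => (hKS y hy).1)) (by
          intro a ha b hb hab
          rcases mem_insert.1 ha with rfl | ha' <;> rcases mem_insert.1 hb with rfl | hb'
          · exact absurd rfl hab
          · exact hno b hb'
          · exact (hno a ha').symm
          · exact hcl a ha' b hb' hab)
        rw [card_insert_of_notMem hxK] at this
        omega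
      obtain ⟨y, hy, hxy⟩ := hy
      obtain ⟨z, hz, hyz⟩ := hdom y (hKS y hy).1 (hKS y hy).2
      have hw : ∃ w ∈ K, G.Adj x w ∧ ¬ G.Adj z w := by
        by_contra hno
        push Not at hno
        have hss : K.filter (G.Adj x) ⊂ K.filter (G.Adj z) := by
          refine ⟨fun w hw => mem_filter.2 ⟨(mem_filter.1 hw).1,
            hno w (mem_filter.1 hw).1 (mem_filter.1 hw).2⟩, fun hh => ?_⟩
          exact hxy (mem_filter.1 (hh (mem_filter.2 ⟨hy, hyz.symm⟩))).2
        have := card_lt_card hss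
        have := hm z hz
        omega
      obtain ⟨w, hw, hxw, hzw⟩ := hw
      exact hP x (hIS hx) w (hKS w hw).1 y (hKS y hy).1 z (hIS hz)
        ⟨hxw, hcl w hw y hy (fun hh => hxy (hh ▸ hxw)), hyz, hxy, hI x hx z hz,
          fun hh => hzw hh.symm⟩
    have h2 := ih (S \ I) h1 (fun a ha b hb c hc d hd =>
      hP a (mem_sdiff.1 ha).1 b (mem_sdiff.1 hb).1 c (mem_sdiff.1 hc).1 d (mem_sdiff.1 hd).1)
    exact (h2.union (col_ind hI)).mono (fun v hv => by
      by_cases hh : v ∈ I
      · exact mem_union_right _ hh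
      · exact mem_union_left _ (mem_sdiff.2 ⟨hv, hh⟩)) le_rfl

omit [Fintype V] in
lemma tri_of {S : Finset V} (h : CF G S 3) {a b c : V} (ha : a ∈ S) (hb : b ∈ S) (hc : c ∈ S)
    (h1 : G.Adj a b) (h2 : G.Adj a c) (h3 : G.Adj b c) : False := by
  have := h {a, b, c} (by
    intro x hx
    simp only [mem_insert, mem_singleton] at hx
    rcases hx with rfl | rfl | rfl <;> assumption) (by
    intro x hx y hy hxy
    simp only [mem_insert, mem_singleton] at hx hy
    have := h1.symm
    have := h2.symm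
    have := h3.symm
    rcases hx with rfl | rfl | rfl <;> rcases hy with rfl | rfl | rfl <;>
      first | assumption | exact absurd rfl hxy)
  rw [card_eq_three.2 ⟨a, b, c, h1.ne, h2.ne, h3.ne, rfl⟩] at this
  omega

lemma aks (S : Finset V) (h : CF G S 3) (t : ℕ) (ht : 1 ≤ t)
    (hα : ∀ J ⊆ S, Ind G J → J.card ≤ t) : (S.card : ℝ) * Real.log (3 * t) ≤ 120 * t ^ 2 := by
  classical
  have := alon (G.induce (S : Set V)) t ht (by
    intro W hW
    rw [← card_map (Function.Embedding.subtype _)]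
    apply hα
    · intro a ha
      obtain ⟨a', -, rfl⟩ := mem_map.1 ha
      exact a'.2
    · intro a ha b hb
      obtain ⟨a', ha', rfl⟩ := mem_map.1 ha
      obtain ⟨b', hb', rfl⟩ := mem_map.1 hb
      exact hW a' ha' b' hb')
    (fun v => ⟨fun _ => 0, fun y z h1 h2 h3 => (tri_of h v.2 y.2 z.2 h1 h2 h3).elim⟩)
  simpa using this

omit [Fintype V] in
lemma peel (S0 : Finset V) (a c : ℕ)
    (h : ∀ T ⊆ S0, (∀ J ⊆ T, Ind G J → J.card ≤ a) → Col G T c) :
    ∀ n, ∀ S ⊆ S0, S.card = n → Col G S (c + n / (a + 1)) := by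
  intro n
  induction n using Nat.strong_induction_on with
  | _ n ih =>
    intro S hS hn
    by_cases hh : ∀ J ⊆ S, Ind G J → J.card ≤ a
    · exact (h S hS hh).mono le_rfl (Nat.le_add_right _ _)
    · push Not at hh
      obtain ⟨J, hJ, hJI, hJc⟩ := hh
      have e := card_sdiff_add_card_eq_card hJ
      have h1 := ih (S \ J).card (by omega) (S \ J) (sdiff_subset.trans hS) rfl
      refine (h1.union (col_ind hJI)).mono (fun v hv => ?_) ?_
      · by_cases hh : v ∈ J
        · exact mem_union_right _ hh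
        · exact mem_union_left _ (mem_sdiff.2 ⟨hv, hh⟩)
      · have : (S \ J).card / (a + 1) + 1 ≤ n / (a + 1) := by
          rw [← Nat.add_div_right _ (Nat.succ_pos a)]
          exact Nat.div_le_div_right (by omega)
        omega

lemma ratio (a t : ℝ) (ha : 1 ≤ a) (h1 : 2 * a ≤ t) :
    a / Real.log (3 * a) ≤ 17 / 20 * (t / Real.log (3 * t)) := by
  have l3 : 1 ≤ Real.log (3 * a) := by
    rw [Real.le_log_iff_exp_le (by linarith)]
    have := Real.exp_one_lt_d9
    linarith
  have lt : 0 < Real.log (3 * t) := Real.log_pos (by linarith)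
  have e : Real.log (3 * t) = Real.log (3 * a) + Real.log 2 + Real.log (t / (2 * a)) := by
    rw [← Real.log_mul (by positivity) (by norm_num), ← Real.log_mul (by positivity)
      (by have : 0 < t := by linarith
          positivity)]
    congr 1; field_simp
  have l2 := Real.log_two_lt_d9
  have l4 : Real.log (t / (2 * a)) ≤ t / (2 * a) - 1 :=
    Real.log_le_sub_one_of_pos (by have : 0 < t := by linarith
                                   positivity)
  have l5 : a * (t / (2 * a)) = t / 2 := by field_simp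
  rw [mul_div_assoc', div_le_div_iff₀ (by linarith) lt, e]
  nlinarith

lemma tf_col (t : ℕ) : ∀ S : Finset V, CF G S 3 → (∀ J ⊆ S, Ind G J → J.card ≤ t) →
    ∃ m : ℕ, Col G S m ∧ (m : ℝ) ≤ 1600 * (t / Real.log (3 * t)) := by
  induction t using Nat.strong_induction_on with
  | _ t ih =>
    intro S h hα
    rcases Nat.eq_zero_or_pos t with rfl | ht
    · have : S = ∅ := by
        by_contra hne
        obtain ⟨v, hv⟩ := nonempty_iff_ne_empty.2 hne
        have := hα {v} (singleton_subset_iff.2 hv) (by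
          intro a ha b hb; rw [mem_singleton.1 ha, mem_singleton.1 hb]; exact G.irrefl)
        simp at this
      exact ⟨0, this ▸ col_empty 0, by simp⟩
    · have ht' : (1 : ℝ) ≤ t := by exact_mod_cast ht
      have lt : 0 < Real.log (3 * t) := Real.log_pos (by linarith)
      set c := ⌊1600 * (((t / 2 : ℕ) : ℝ) / Real.log (3 * ((t / 2 : ℕ) : ℝ)))⌋₊ with hc
      have h1 := peel (G := G) S (t / 2) c (by
        intro T hT hTa
        obtain ⟨m, hm, hm'⟩ := ih (t / 2) (by omega) T (fun K hK => h K (hK.trans hT)) hTa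
        exact hm.mono le_rfl (Nat.le_floor hm')) _ S le_rfl rfl
      refine ⟨_, h1, ?_⟩
      have b1 : (c : ℝ) ≤ 1360 * (t / Real.log (3 * t)) := by
        rcases Nat.eq_zero_or_pos (t / 2) with h0 | h0
        · rw [hc, h0]; simp; positivity
        · have a1 : (1 : ℝ) ≤ ((t / 2 : ℕ) : ℝ) := by exact_mod_cast h0
          have a2 : 2 * ((t / 2 : ℕ) : ℝ) ≤ t := by exact_mod_cast (by omega : 2 * (t / 2) ≤ t)
          have a3 := ratio _ _ a1 a2
          have a4 : (c : ℝ) ≤ 1600 * (((t / 2 : ℕ) : ℝ) / Real.log (3 * ((t / 2 : ℕ) : ℝ))) :=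
            Nat.floor_le (by
              have := Real.log_pos (show 1 < 3 * ((t / 2 : ℕ) : ℝ) by linarith)
              positivity)
          linarith
      have b2 : ((S.card / (t / 2 + 1) : ℕ) : ℝ) ≤ 240 * (t / Real.log (3 * t)) := by
        have a1 := aks S h t ht hα
        have a2 : (S.card / (t / 2 + 1)) * t ≤ 2 * S.card := by
          have := Nat.div_mul_le_self S.card (t / 2 + 1)
          have e : t ≤ 2 * (t / 2 + 1) := by omega
          calc _ ≤ (S.card / (t / 2 + 1)) * (2 * (t / 2 + 1)) := Nat.mul_le_mul_left _ e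
            _ = 2 * ((S.card / (t / 2 + 1)) * (t / 2 + 1)) := by ring
            _ ≤ _ := by omega
        have a3 : ((S.card / (t / 2 + 1) : ℕ) : ℝ) * t ≤ 2 * S.card := by exact_mod_cast a2
        rw [mul_div_assoc', le_div_iff₀ lt]
        have a4 : ((S.card / (t / 2 + 1) : ℕ) : ℝ) * Real.log (3 * t) * t ≤ 240 * t * t := by
          nlinarith
        exact le_of_mul_le_mul_right a4 (by linarith)
      push_cast
      linarith

omit [Fintype V] in
open Classical in
lemma heavy {l : ℕ} (hP : PF G l) (hl : 1 ≤ l) (S0 I : Finset V) (h3 : CF G S0 3) (hIS : I ⊆ S0)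
    (hI : Ind G I) (hc : I.card = 5 * l) (j : ℕ) : ∀ (D R : Finset V), D ⊆ S0 → R.card ≤ j * l →
    (∀ v ∈ D, l ≤ (I.filter (G.Adj v)).card ∧ I.filter (G.Adj v) ⊆ R) → Col G D (2 * j) := by
  induction j with
  | zero =>
    intro D R _ hR hD
    have : D = ∅ := by
      by_contra hne
      obtain ⟨v, hv⟩ := nonempty_iff_ne_empty.2 hne
      have := card_le_card (hD v hv).2
      have := (hD v hv).1
      omega
    rw [this]; exact col_empty _
  | succ j ih =>
    intro D R hDS hR hD
    rcases D.eq_empty_or_nonempty with rfl | hne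
    · exact col_empty _
    obtain ⟨u, hu, hm⟩ := exists_min_image D (fun v => (I.filter (G.Adj v)).card) hne
    set A := I.filter (G.Adj u) with hA
    have nadj : ∀ v ∈ D, ∀ w ∈ D, ∀ x ∈ I, G.Adj v x → G.Adj w x → ¬ G.Adj v w :=
      fun v hv w hw x hx h1 h2 h4 => tri_of h3 (hDS hv) (hDS hw) (hIS hx) h4 h1 h2
    have c0 := ih (D.filter (fun v => ∀ x ∈ A, ¬ G.Adj v x)) (R \ A)
      ((filter_subset _ _).trans hDS) (by
        have e1 : (R \ A).card + A.card = R.card := card_sdiff_add_card_eq_card (hD u hu).2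
        have e2 : l ≤ A.card := (hD u hu).1
        rw [add_mul] at hR
        omega) (by
        intro v hv
        have hv' := mem_filter.1 hv
        refine ⟨(hD v hv'.1).1, fun x hx => mem_sdiff.2 ⟨(hD v hv'.1).2 hx, fun hxA => ?_⟩⟩
        exact hv'.2 x hxA (mem_filter.1 hx).2)
    have c1 : Ind G (D.filter (fun v => ∀ x ∈ A, G.Adj v x)) := by
      obtain ⟨x, hx⟩ : A.Nonempty := card_pos.1 (lt_of_lt_of_le hl (hD u hu).1)
      intro v hv w hw
      have hv' := mem_filter.1 hv
      have hw' := mem_filter.1 hw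
      exact nadj v hv'.1 w hw'.1 x (mem_filter.1 hx).1 (hv'.2 x hx) (hw'.2 x hx)
    have key : ∀ v ∈ D, (∃ x ∈ A, G.Adj v x) → (∃ x ∈ A, ¬ G.Adj v x) →
        (I.filter (fun z => ¬ G.Adj u z ∧ ¬ G.Adj v z)).card < l := by
      rintro v hv ⟨y, hy, hvy⟩ ⟨x, hx, hvx⟩
      have hy' := mem_filter.1 hy
      have hx' := mem_filter.1 hx
      refine hP x u y v ⟨hx'.2.symm, hy'.2, hvy.symm, hI x hx'.1 y hy'.1,
        fun hh => hvx hh.symm, nadj u hu v hv y hy'.1 hy'.2 hvy⟩ _
        (fun a ha b hb => hI a (mem_filter.1 ha).1 b (mem_filter.1 hb).1) ?_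
      intro z hz
      have hz' := mem_filter.1 hz
      exact ⟨hI z hz'.1 x hx'.1, fun hh => hz'.2.1 hh.symm, hI z hz'.1 y hy'.1,
        fun hh => hz'.2.2 hh.symm⟩
    have c2 : Ind G (D.filter (fun v => (∃ x ∈ A, G.Adj v x) ∧ ∃ x ∈ A, ¬ G.Adj v x)) := by
      intro v hv w hw hvw
      have hv' := mem_filter.1 hv
      have hw' := mem_filter.1 hw
      have k1 := key v hv'.1 hv'.2.1 hv'.2.2
      have k2 := key w hw'.1 hw'.2.1 hw'.2.2
      have s1 : I ⊆ A ∪ (I.filter (fun z => ¬ G.Adj u z ∧ ¬ G.Adj v z) ∪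
          I.filter (fun z => ¬ G.Adj u z ∧ ¬ G.Adj w z)) := by
        intro z hz
        by_cases p : G.Adj u z
        · exact mem_union_left _ (mem_filter.2 ⟨hz, p⟩)
        · by_cases q : G.Adj v z
          · exact mem_union_right _ (mem_union_right _ (mem_filter.2
              ⟨hz, p, fun r => nadj v hv'.1 w hw'.1 z hz q r hvw⟩))
          · exact mem_union_right _ (mem_union_left _ (mem_filter.2 ⟨hz, p, q⟩))
      have s2 := (card_le_card s1).trans ((card_union_le _ _).trans
        (Nat.add_le_add_left (card_union_le _ _) _))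
      have s3 : Disjoint (I.filter (G.Adj v)) (I.filter (G.Adj w)) := by
        rw [disjoint_left]
        intro z h1 h2
        exact nadj v hv'.1 w hw'.1 z (mem_filter.1 h1).1 (mem_filter.1 h1).2 (mem_filter.1 h2).2 hvw
      have s4 := card_le_card (union_subset (filter_subset (G.Adj v) I) (filter_subset (G.Adj w) I))
      rw [card_union_of_disjoint s3] at s4
      have m1 := hm v hv'.1
      have m2 := hm w hw'.1
      omega
    refine ((c0.union (col_ind c1)).union (col_ind c2)).mono (fun v hv => ?_) (by omega)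
    simp only [mem_union, mem_filter]
    by_cases p : ∃ x ∈ A, G.Adj v x
    · by_cases q : ∃ x ∈ A, ¬ G.Adj v x
      · exact Or.inr ⟨hv, by simpa using p, by simpa using q⟩
      · push Not at q
        exact Or.inl (Or.inr ⟨hv, by simpa using q⟩)
    · push Not at p
      exact Or.inl (Or.inl ⟨hv, by simpa using p⟩)

lemma base {l : ℕ} (hP : PF G l) (hl : 1 ≤ l) (S : Finset V) (h3 : CF G S 3) :
    ∃ m : ℕ, Col G S m ∧ (m : ℝ) ≤ 8000 * (l / Real.log (15 * l)) := by
  classical
  have hl' : (1 : ℝ) ≤ l := by exact_mod_cast hl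
  by_cases hα : ∀ J ⊆ S, Ind G J → J.card ≤ 5 * l
  · obtain ⟨m, h1, h2⟩ := tf_col (5 * l) S h3 hα
    refine ⟨m, h1, h2.trans (le_of_eq ?_)⟩
    push_cast
    rw [show (3 : ℝ) * (5 * l) = 15 * l by ring]
    ring
  · push Not at hα
    obtain ⟨J, hJ, hJI, hJc⟩ := hα
    obtain ⟨I, hIJ, hc⟩ := exists_subset_card_eq hJc.le
    have hI : Ind G I := fun a ha b hb => hJI a (hIJ ha) b (hIJ hb)
    have c1 := heavy hP hl S I h3 (hIJ.trans hJ) hI hc 5
      (S.filter (fun v => l ≤ (I.filter (G.Adj v)).card)) I (filter_subset _ _) hc.le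
      (fun v hv => ⟨by convert (mem_filter.1 hv).2, filter_subset _ _⟩)
    have c2 := cograph (G := G) 2 (S.filter (fun v => (I.filter (G.Adj v)).card < l))
      (fun K hK => h3 K (hK.trans (filter_subset _ _))) (by
        intro a ha b hb c hc' d hd hp
        have k := hP a b c d hp
          (I.filter (fun x => ¬ G.Adj x a ∧ ¬ G.Adj x b ∧ ¬ G.Adj x c ∧ ¬ G.Adj x d))
          (fun a ha b hb => hI a (mem_filter.1 ha).1 b (mem_filter.1 hb).1)
          (fun x hx => (mem_filter.1 hx).2)
        have s1 : I ⊆ I.filter (fun x => ¬ G.Adj x a ∧ ¬ G.Adj x b ∧ ¬ G.Adj x c ∧ ¬ G.Adj x d) ∪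
            (I.filter (G.Adj a) ∪ (I.filter (G.Adj b) ∪ (I.filter (G.Adj c) ∪
              I.filter (G.Adj d)))) := by
          intro x hx
          simp only [mem_union, mem_filter, hx, true_and, G.adj_comm x]
          tauto
        have s2 := (card_le_card s1).trans ((card_union_le _ _).trans
          (Nat.add_le_add_left ((card_union_le _ _).trans (Nat.add_le_add_left
            ((card_union_le _ _).trans (Nat.add_le_add_left (card_union_le _ _) _)) _)) _))
        have := (mem_filter.1 ha).2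
        have := (mem_filter.1 hb).2
        have := (mem_filter.1 hc').2
        have := (mem_filter.1 hd).2
        omega)
    refine ⟨12, (c1.union c2).mono (fun v hv => ?_) le_rfl, ?_⟩
    · by_cases p : l ≤ (I.filter (G.Adj v)).card
      · exact mem_union_left _ (mem_filter.2 ⟨hv, p⟩)
      · exact mem_union_right _ (mem_filter.2 ⟨hv, not_le.1 p⟩)
    · have a1 : Real.log (15 * l) ≤ 15 * l - 1 := Real.log_le_sub_one_of_pos (by linarith)
      have a2 : 0 < Real.log (15 * l) := Real.log_pos (by linarith)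
      rw [mul_div_assoc', le_div_iff₀ a2]
      push_cast
      linarith

lemma gen {l : ℕ} (hP : PF G l) (hl : 1 ≤ l) (j : ℕ) : ∀ S : Finset V, CF G S (j + 3) →
    ∃ m : ℕ, Col G S m ∧
      (m : ℝ) ≤ (8000 + 15 * (j + 3) ^ 2) * ((l : ℝ) ^ (j + 1) / Real.log (15 * l)) := by
  classical
  have hl' : (1 : ℝ) ≤ l := by exact_mod_cast hl
  have a1 : Real.log (15 * l) ≤ 15 * l - 1 := Real.log_le_sub_one_of_pos (by linarith)
  have a2 : 0 < Real.log (15 * l) := Real.log_pos (by linarith)
  induction j with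
  | zero =>
    intro S h
    obtain ⟨m, h1, h2⟩ := base hP hl S h
    refine ⟨m, h1, h2.trans ?_⟩
    rw [zero_add, pow_one]
    have : (0 : ℝ) ≤ l / Real.log (15 * l) := by positivity
    gcongr
    norm_num
  | succ j ih =>
    intro S h
    set B : ℝ := (8000 + 15 * (j + 3) ^ 2) * ((l : ℝ) ^ (j + 1) / Real.log (15 * l)) with hB
    have hB0 : 0 ≤ B := by positivity
    obtain ⟨I0, hI0S, hI0, -, hdom⟩ := max_ind (G := G) S
    obtain ⟨I, hII, hIc⟩ := exists_subset_card_eq (min_le_left I0.card l)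
    have hI : Ind G I := fun a ha b hb => hI0 a (hII ha) b (hII hb)
    have c1 := col_biUnion (G := G) I (fun s => S.filter (G.Adj s)) ⌊B⌋₊ (by
      intro s hs
      obtain ⟨m, h1, h2⟩ := ih (S.filter (G.Adj s)) (by
        intro K hK hcl
        have hsK : s ∉ K := fun hh => G.irrefl (mem_filter.1 (hK hh)).2
        have := h (insert s K) (insert_subset (hI0S (hII hs)) (hK.trans (filter_subset _ _))) (by
          intro a ha b hb hab
          rcases mem_insert.1 ha with rfl | ha' <;> rcases mem_insert.1 hb with rfl | hb'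
          · exact absurd rfl hab
          · exact (mem_filter.1 (hK hb')).2
          · exact (mem_filter.1 (hK ha')).2.symm
          · exact hcl a ha' b hb' hab)
        rw [card_insert_of_notMem hsK] at this
        omega)
      exact h1.mono le_rfl (Nat.le_floor h2))
    have c2 := cograph (G := G) (j + 3) (S.filter (fun v => ∀ s ∈ I, ¬ G.Adj s v))
      (fun K hK => h K (hK.trans (filter_subset _ _))) (by
        intro a ha b hb c hc d hd hp
        have ha' := mem_filter.1 ha
        have hb' := mem_filter.1 hb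
        have k := hP a b c d hp I hI (fun x hx => ⟨ha'.2 x hx, hb'.2 x hx,
          (mem_filter.1 hc).2 x hx, (mem_filter.1 hd).2 x hx⟩)
        have e : I = I0 := eq_of_subset_of_card_le hII (by omega)
        have inI : ∀ v ∈ S, (∀ s ∈ I, ¬ G.Adj s v) → v ∈ I := by
          intro v hv hv'
          by_contra hn
          rw [e] at hn hv'
          obtain ⟨x, hx, hvx⟩ := hdom v hv hn
          exact hv' x hx hvx.symm
        exact hI a (inI a ha'.1 ha'.2) b (inI b hb'.1 hb'.2) hp.1)
    refine ⟨_, (c1.union c2).mono (fun v hv => ?_) le_rfl, ?_⟩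
    · by_cases p : ∀ s ∈ I, ¬ G.Adj s v
      · exact mem_union_right _ (mem_filter.2 ⟨hv, p⟩)
      · push Not at p
        obtain ⟨s, hs, hsv⟩ := p
        exact mem_union_left _ (mem_biUnion.2 ⟨s, hs, mem_filter.2 ⟨hv, hsv⟩⟩)
    · have b1 : (I.card : ℝ) ≤ l := by exact_mod_cast (by omega : I.card ≤ l)
      have b2 : (⌊B⌋₊ : ℝ) ≤ B := Nat.floor_le hB0
      have b3 : (I.card : ℝ) * ⌊B⌋₊ ≤ l * B := by gcongr
      set x : ℝ := (l : ℝ) ^ (j + 1 + 1) / Real.log (15 * l) with hx
      have b4 : l * B = (8000 + 15 * (j + 3) ^ 2) * x := by rw [hB, hx]; ring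
      have b5 : 1 ≤ 15 * x := by
        rw [hx, mul_div_assoc', le_div_iff₀ a2]
        have : (l : ℝ) ≤ (l : ℝ) ^ (j + 1 + 1) := le_self_pow₀ hl' (by omega)
        linarith
      have j0 : (0 : ℝ) ≤ j := by positivity
      push_cast
      nlinarith

end main

lemma pf_of {V : Type} [DecidableEq V] (G : SimpleGraph V) (l : ℕ) (h : IsEmpty (forb l ↪g G)) :
    PF G l := by
  intro a b c d ⟨h1, h2, h3, h4, h5, h6⟩ J hJ hx
  by_contra hc
  push Not at hc
  obtain ⟨T, hT, hTc⟩ := exists_subset_card_eq hc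
  let g : Fin l → V := fun i => (T.equivFinOfCardEq hTc).symm i
  have gi : Function.Injective g := fun i j hij =>
    (T.equivFinOfCardEq hTc).symm.injective (Subtype.ext hij)
  have gm : ∀ i, g i ∈ J := fun i => hT ((T.equivFinOfCardEq hTc).symm i).2
  have n1 : a ≠ c := fun e => h5 (e ▸ h3)
  have n2 : b ≠ d := fun e => h5 (e ▸ h1)
  have n3 : a ≠ d := fun e => h4 (e ▸ h3.symm)
  have n4 := h1.ne
  have n5 := h2.ne
  have n6 := h3.ne
  have h1' := h1.symm
  have h2' := h2.symm
  have h3' := h3.symm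
  have h4' : ¬ G.Adj c a := fun e => h4 e.symm
  have h5' : ¬ G.Adj d a := fun e => h5 e.symm
  have h6' : ¬ G.Adj d b := fun e => h6 e.symm
  have pa : ∀ (i : Fin 4) (j : Fin l), ¬ G.Adj (g j) (![a, b, c, d] i) := by
    intro i j
    have := hx _ (gm j)
    fin_cases i
    exacts [this.1, this.2.1, this.2.2.1, this.2.2.2]
  have pn : ∀ (i : Fin 4) (j : Fin l), ![a, b, c, d] i ≠ g j := by
    intro i j e
    have := hx _ (gm j)
    rw [← e] at this
    fin_cases i
    exacts [this.2.1 h1, this.1 h1', this.2.1 h2', this.2.2.1 h3']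
  refine h.false ⟨⟨Sum.elim ![a, b, c, d] g, ?_⟩, ?_⟩
  · rintro (i | i) (j | j) hij
    · simp only [Sum.elim_inl] at hij
      fin_cases i <;> fin_cases j <;> simp_all [eq_comm]
    · exact absurd hij (pn i j)
    · exact absurd hij.symm (pn j i)
    · exact congrArg _ (gi hij)
  · rintro (i | i) (j | j)
    · change G.Adj (![a, b, c, d] i) (![a, b, c, d] j) ↔ (SimpleGraph.pathGraph 4).Adj i j
      rw [SimpleGraph.pathGraph_adj]
      fin_cases i <;> fin_cases j <;> simp [*]
    · exact ⟨fun e => absurd e.symm (pa i j), fun e => by simp [forb] at e⟩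
    · exact ⟨fun e => absurd e (pa j i), fun e => by simp [forb] at e⟩
    · exact ⟨fun e => absurd e (hJ _ (gm i) _ (gm j)), fun e => by simp [forb] at e⟩

lemma upper (n k l : ℕ) (G : SimpleGraph (Fin n)) (hk : 3 ≤ k) (hl : 1 ≤ l) (h : InClass G l k) :
    ∃ m : ℕ, G.Colorable m ∧
      (m : ℝ) ≤ (8000 + 15 * (k : ℝ) ^ 2) * ((l : ℝ) ^ (k - 2) / Real.log (15 * l)) := by
  classical
  obtain ⟨j, rfl⟩ : ∃ j, k = j + 3 := ⟨k - 3, by omega⟩
  obtain ⟨m, ⟨c, h1, h2⟩, h3⟩ := gen (pf_of G l h.1) hl j univ (by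
    intro K _ hcl
    by_contra hc
    push Not at hc
    obtain ⟨T, hT, hTc⟩ := exists_subset_card_eq hc
    exact h.2 T ⟨fun a ha b hb hab => hcl a (hT ha) b (hT hb) hab, hTc⟩)
  refine ⟨m, ⟨SimpleGraph.Coloring.mk (fun v => ⟨c v, h1 v (mem_univ _)⟩) ?_⟩, ?_⟩
  · intro u v huv e
    exact h2 u (mem_univ _) v (mem_univ _) huv (congrArg Fin.val e)
  · rw [show j + 3 - 2 = j + 1 by omega]
    push_cast
    exact h3

lemma lower (n k l : ℕ) (G : SimpleGraph (Fin n)) (hG : G.CliqueFree k)
    (hα : G.indepNum ≤ l + 1) : InClass G l k ∧ ∀ m, G.Colorable m → n ≤ (l + 1) * m := by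
  classical
  have hind : ∀ T : Finset (Fin n), G.IsIndepSet T → T.card ≤ l + 1 :=
    fun T hT => hT.card_le_indepNum.trans hα
  refine ⟨⟨⟨fun f => ?_⟩, hG⟩, ?_⟩
  · let e : Fin 2 ⊕ Fin l → Fin 4 ⊕ Fin l := Sum.map ![0, 2] id
    have ei : Function.Injective e := by
      apply Function.Injective.sumMap _ Function.injective_id
      intro i j hij
      fin_cases i <;> fin_cases j <;> simp_all
    have := hind (univ.image (f ∘ e)) (by
      intro a ha b hb _ hab
      obtain ⟨x, -, rfl⟩ := mem_image.1 (mem_coe.1 ha)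
      obtain ⟨y, -, rfl⟩ := mem_image.1 (mem_coe.1 hb)
      have h2 : (forb l).Adj (e x) (e y) := f.map_rel_iff.1 hab
      rcases x with x | x <;> rcases y with y | y
      · change (SimpleGraph.pathGraph 4).Adj (![0, 2] x) (![0, 2] y) at h2
        rw [SimpleGraph.pathGraph_adj] at h2
        fin_cases x <;> fin_cases y <;> simp at h2
      all_goals simp [forb, e] at h2)
    rw [card_image_of_injective _ (f.injective.comp ei)] at this
    simp at this
    omega
  · rintro m ⟨C⟩
    have h1 : (univ : Finset (Fin n)).card ≤ (l + 1) * (univ : Finset (Fin m)).card := by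
      refine card_le_mul_card_image_of_maps_to (f := C) (fun _ _ => mem_univ _) (l + 1) ?_
      intro t _
      apply hind
      intro a ha b hb _ hab
      exact C.valid hab ((mem_filter.1 (mem_coe.1 ha)).2.trans (mem_filter.1 (mem_coe.1 hb)).2.symm)
    simpa using h1

theorem result :
    (∀ (n k l : ℕ) (G : SimpleGraph (Fin n)), 3 ≤ k → 1 ≤ l → InClass G l k →
      ∃ m : ℕ, G.Colorable m ∧
        (m : ℝ) ≤ (8000 + 15 * (k : ℝ) ^ 2) * ((l : ℝ) ^ (k - 2) / Real.log (15 * l))) ∧
    (∀ (n k l : ℕ) (G : SimpleGraph (Fin n)), G.CliqueFree k → G.indepNum ≤ l + 1 →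
      InClass G l k ∧ ∀ m, G.Colorable m → n ≤ (l + 1) * m) :=
  ⟨fun n k l G => upper n k l G, lower⟩

end Pool.Agent.Results.MP_6383d0_co.Order
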